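import Mathlib

/-!
# Equal diagonal entries of the exponential without cospectrality, for a defective matrix
-/

set_option autoImplicit false

namespace Pool.Agent.Results.MP_513688_co.FourByFour

open Matrix Finset

/-- the matrix: nonnegative integers, all row and column sums `24` -/
def AZ : Matrix (Fin 4) (Fin 4) ℚ := !![6, 6, 3, 9; 4, 4, 7, 9; 8, 8, 8, 0; 6, 6, 6, 6]

/-- the real matrix -/
noncomputable def A : Matrix (Fin 4) (Fin 4) ℝ := AZ.map (algebraMap ℚ ℝ)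

/-- diagonalizability over `ℂ` -/
def IsDiagonalizable {n : ℕ} (M : Matrix (Fin n) (Fin n) ℂ) : Prop :=
  ∃ (P : Matrix (Fin n) (Fin n) ℂ) (d : Fin n → ℂ), IsUnit P ∧ M * P = P * Matrix.diagonal d

lemma rel4 : AZ * AZ * AZ * AZ = 24 • (AZ * AZ * AZ) := by decide +kernel

lemma rel2 : AZ * AZ ≠ 24 • AZ := by decide +kernel

lemma not_diag : ¬ IsDiagonalizable (A.map (algebraMap ℝ ℂ)) := by
  rintro ⟨P, d, hP, hd⟩
  set M : Matrix (Fin 4) (Fin 4) ℂ := A.map (algebraMap ℝ ℂ) with hM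
  have hMQ : M = (algebraMap ℚ ℂ).mapMatrix AZ := by
    ext i j
    simp [hM, A]
  have h4 : M * M * M * M = 24 • (M * M * M) := by
    have h := congrArg (algebraMap ℚ ℂ).mapMatrix rel4
    rw [map_mul, map_mul, map_mul, map_nsmul, map_mul, map_mul, ← hMQ] at h
    exact h
  have hne : M * M ≠ 24 • M := by
    intro h
    apply rel2
    have hinj : Function.Injective ((algebraMap ℚ ℂ).mapMatrix (m := Fin 4)) := by
      intro X Y hXY
      ext i j
      have := congrFun (congrFun hXY i) j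
      simpa using this
    apply hinj
    rw [map_mul, map_nsmul, ← hMQ]
    exact h
  have p1 : M * M * P = P * (diagonal d * diagonal d) := by
    rw [Matrix.mul_assoc, hd, ← Matrix.mul_assoc, hd, Matrix.mul_assoc]
  have p2 : M * M * M * P = P * (diagonal d * diagonal d * diagonal d) := by
    rw [Matrix.mul_assoc, hd, ← Matrix.mul_assoc, p1, Matrix.mul_assoc]
  have p3 : M * M * M * M * P = P * (diagonal d * diagonal d * diagonal d * diagonal d) := by
    rw [Matrix.mul_assoc, hd, ← Matrix.mul_assoc, p2, Matrix.mul_assoc]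
  have p4 : diagonal d * diagonal d * diagonal d * diagonal d
      = 24 • (diagonal d * diagonal d * diagonal d) := by
    apply hP.mul_left_cancel
    rw [← p3, h4, smul_mul_assoc, p2, mul_smul_comm]
  have hd0 : ∀ i, d i * d i = 24 * d i := by
    intro i
    have h := congrFun (congrFun p4 i) i
    simp only [diagonal_mul_diagonal, Matrix.smul_apply, diagonal_apply_eq, nsmul_eq_mul,
      Nat.cast_ofNat] at h
    have h2 : (d i) ^ 3 * (d i - 24) = 0 := by linear_combination h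
    rcases mul_eq_zero.mp h2 with h3 | h3
    · have : d i = 0 := pow_eq_zero_iff (three_ne_zero) |>.mp h3
      rw [this]; ring
    · have : d i = 24 := by linear_combination h3
      rw [this]
  apply hne
  apply hP.mul_right_cancel
  rw [p1, smul_mul_assoc, hd, ← mul_smul_comm]
  congr 1
  ext i j
  simp only [diagonal_mul_diagonal, Matrix.smul_apply, nsmul_eq_mul, Nat.cast_ofNat]
  by_cases hij : i = j
  · subst hij
    simp only [diagonal_apply_eq]
    exact hd0 i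
  · simp [diagonal_apply_ne _ hij]

/-- one third of the matrix -/
def BZ : Matrix (Fin 4) (Fin 4) ℚ := (1 / 3 : ℚ) • AZ

lemma B3 : BZ ^ 3 = Matrix.of fun _ _ => 128 := by
  rw [pow_succ, pow_succ, pow_one]
  decide +kernel

lemma B4 : BZ * (Matrix.of fun _ _ => 1) = (8 : ℚ) • (Matrix.of fun _ _ => 1) := by
  decide +kernel

lemma Bpow (n : ℕ) : BZ ^ (n + 3) = (128 * 8 ^ n : ℚ) • (Matrix.of fun _ _ => 1) := by
  induction n with
  | zero =>
    rw [B3]
    ext i j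
    simp
  | succ n ih =>
    rw [show n + 1 + 3 = (n + 3) + 1 from by ring, pow_succ', ih, mul_smul_comm, B4]
    ext i j
    simp only [Matrix.smul_apply, Matrix.of_apply, smul_eq_mul]
    ring

lemma B0 : (BZ ^ 0) 0 0 - (BZ ^ 0) 1 1 = 0 := by decide +kernel

lemma B1 : (BZ ^ 1) 0 0 - (BZ ^ 1) 1 1 = 2 / 3 := by
  rw [pow_one]; decide +kernel

lemma B2 : (BZ ^ 2) 0 0 - (BZ ^ 2) 1 1 = - (4 / 3) := by
  rw [pow_succ, pow_one]; decide +kernel

lemma exp_diag : (NormedSpace.exp ((1 / 3 : ℝ) • A)) 0 0 = (NormedSpace.exp ((1 / 3 : ℝ) • A)) 1 1 := by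
  let _ : NormedRing (Matrix (Fin 4) (Fin 4) ℝ) := Matrix.linftyOpNormedRing
  let _ : NormedAlgebra ℝ (Matrix (Fin 4) (Fin 4) ℝ) := Matrix.linftyOpNormedAlgebra
  have hB : (1 / 3 : ℝ) • A = (algebraMap ℚ ℝ).mapMatrix BZ := by
    ext i j
    simp [A, BZ]
  have hs := NormedSpace.exp_series_hasSum_exp' (𝕂 := ℝ) ((1 / 3 : ℝ) • A)
  have h00 := Pi.hasSum.mp (Pi.hasSum.mp hs 0) 0
  have h11 := Pi.hasSum.mp (Pi.hasSum.mp hs 1) 1
  have hd := h00.sub h11
  have hf : ∀ n : ℕ, (((n.factorial : ℝ)⁻¹ • ((1 / 3 : ℝ) • A) ^ n) 0 0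
      - ((n.factorial : ℝ)⁻¹ • ((1 / 3 : ℝ) • A) ^ n) 1 1)
      = (n.factorial : ℝ)⁻¹ * (((BZ ^ n) 0 0 - (BZ ^ n) 1 1 : ℚ) : ℝ) := by
    intro n
    rw [hB, ← map_pow]
    simp only [Matrix.smul_apply, RingHom.mapMatrix_apply, Matrix.map_apply, smul_eq_mul,
      eq_ratCast]
    push_cast
    ring
  have hsum : HasSum (fun n : ℕ => (n.factorial : ℝ)⁻¹ * (((BZ ^ n) 0 0 - (BZ ^ n) 1 1 : ℚ) : ℝ))
      (∑ n ∈ range 3, (n.factorial : ℝ)⁻¹ * (((BZ ^ n) 0 0 - (BZ ^ n) 1 1 : ℚ) : ℝ)) := by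
    apply hasSum_sum_of_ne_finset_zero
    intro n hn
    obtain ⟨k, rfl⟩ : ∃ k, n = k + 3 := ⟨n - 3, by simp at hn; omega⟩
    rw [Bpow]
    simp
  have h0 : (∑ n ∈ range 3, (n.factorial : ℝ)⁻¹ * (((BZ ^ n) 0 0 - (BZ ^ n) 1 1 : ℚ) : ℝ)) = 0 := by
    rw [Finset.sum_range_succ, Finset.sum_range_succ, Finset.sum_range_one, B0, B1, B2]
    norm_num [Nat.factorial]
  rw [h0] at hsum
  have hfun : (fun n : ℕ => (((n.factorial : ℝ)⁻¹ • ((1 / 3 : ℝ) • A) ^ n) 0 0
      - ((n.factorial : ℝ)⁻¹ • ((1 / 3 : ℝ) • A) ^ n) 1 1))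
      = (fun n : ℕ => (n.factorial : ℝ)⁻¹ * (((BZ ^ n) 0 0 - (BZ ^ n) 1 1 : ℚ) : ℝ)) := funext hf
  have h9 := hd.unique (hfun ▸ hsum)
  exact sub_eq_zero.mp h9

/-- **There is a nonnegative integer matrix `A`, not diagonalizable over `ℂ`, and an algebraic
`β ≠ 0` for which `e ^ (β A)` has two equal diagonal entries at vertices that are not cospectral.** -/
theorem result : ∃ (n : ℕ) (A : Matrix (Fin n) (Fin n) ℝ) (β : ℝ) (i j : Fin n),
    (∀ u v, 0 ≤ A u v ∧ IsAlgebraic ℚ (A u v)) ∧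
    ¬ IsDiagonalizable (A.map (algebraMap ℝ ℂ)) ∧
    β ≠ 0 ∧ IsAlgebraic ℚ β ∧
    (NormedSpace.exp (β • A)) i i = (NormedSpace.exp (β • A)) j j ∧
    ∃ r : ℕ, (A ^ r) i i ≠ (A ^ r) j j := by
  refine ⟨4, A, 1 / 3, 0, 1, ?_, not_diag, by norm_num, ?_, exp_diag, 1, ?_⟩
  · intro u v
    constructor
    · have h : (0 : ℚ) ≤ AZ u v := by
        fin_cases u <;> fin_cases v <;> simp [AZ]
      simp only [A, Matrix.map_apply, eq_ratCast]
      exact_mod_cast h
    · exact isAlgebraic_algebraMap (AZ u v)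
  · have : (1 / 3 : ℝ) = algebraMap ℚ ℝ (1 / 3) := by simp
    rw [this]
    exact isAlgebraic_algebraMap _
  · rw [pow_one]
    simp [A, AZ]

end Pool.Agent.Results.MP_513688_co.FourByFour
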